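import Mathlib

/-!
# Taylor coefficients of the theta function: definitions and statements

Definitions of the problem `MP_3ef01f_nt` and the statements of the lemma jobs.
-/

namespace Pool.Agent.Q254.Theta

open PowerSeries

/-- `Π₁(N) = ∏_{j=1}^N (4j-1)²`. -/
def Pi1 (N : ℕ) : ℚ := ∏ j ∈ Finset.range N, (4 * ((j : ℚ) + 1) - 1) ^ 2

/-- `Π₃(N) = ∏_{j=1}^N (4j-3)²`. -/
def Pi3 (N : ℕ) : ℚ := ∏ j ∈ Finset.range N, (4 * ((j : ℚ) + 1) - 3) ^ 2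

/-- `u(n) = Π₁(n) - ∑_{m<n} C(2n+1,2m+1) Π₃(n-m) u(m)`. -/
def u : ℕ → ℚ
  | n => Pi1 n - ∑ m : Fin n,
      ((2 * n + 1).choose (2 * m.1 + 1) : ℚ) * Pi3 (n - m.1) * u m.1

/-- `v(0) = 1`, `v(n) = 2^(n-1) Π₃(n) - (1/2) ∑_{m=1}^{n-1} C(2n,2m) v(m) v(n-m)`. -/
def v : ℕ → ℚ
  | 0 => 1
  | n + 1 => 2 ^ n * Pi3 (n + 1) - 1 / 2 * ∑ m : Fin n,
      ((2 * (n + 1)).choose (2 * (m.1 + 1)) : ℚ) * v (m.1 + 1) * v (n + 1 - (m.1 + 1))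

/-- `U(t) = ∑_n u(n)/(2n+1)! t^(2n+1)`. -/
noncomputable def U : ℚ⟦X⟧ :=
  PowerSeries.mk fun k => if k % 2 = 1 then u (k / 2) / (k.factorial : ℚ) else 0

/-- `r(n,k) = 2^(n-k) (2n)!/(2k)! [t^(2n)] U^(2k)`. -/
noncomputable def r (n k : ℕ) : ℚ :=
  2 ^ (n - k) * ((2 * n).factorial : ℚ) / ((2 * k).factorial : ℚ) *
    PowerSeries.coeff (2 * n) (U ^ (2 * k))

/-- `d(n) = v(n) - ∑_{k<n} r(n,k) d(k)`. -/
noncomputable def d : ℕ → ℚ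
  | n => v n - ∑ k : Fin n, r n k.1 * d k.1

/-! ## Auxiliary series -/

/-- The even solution of `((1-4X²)y')' = y`. -/
noncomputable def P3 : ℚ⟦X⟧ :=
  PowerSeries.mk fun k => if k % 2 = 0 then Pi3 (k / 2) / (k.factorial : ℚ) else 0

/-- The odd solution of `((1-4X²)y')' = y`. -/
noncomputable def P1 : ℚ⟦X⟧ :=
  PowerSeries.mk fun k => if k % 2 = 1 then Pi1 (k / 2) / (k.factorial : ℚ) else 0

/-- The square root of `P3`. -/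
noncomputable def Vt : ℚ⟦X⟧ :=
  PowerSeries.mk fun k =>
    if k % 2 = 0 then v (k / 2) / 2 ^ (k / 2) / (k.factorial : ℚ) else 0

/-- The polynomial `1 - 4X²` as a power series. -/
noncomputable def D4 (R : Type*) [CommRing R] : R⟦X⟧ := 1 - 4 * PowerSeries.X ^ 2

/-- The derivation `f ↦ g f'`. -/
noncomputable def dl {R : Type*} [CommRing R] (g f : R⟦X⟧) : R⟦X⟧ :=
  g * PowerSeries.derivative R f

/-- The coefficient at `0` of `δ^n f`, with `δ f = g f'`. -/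
noncomputable def bb {R : Type*} [CommRing R] (g f : R⟦X⟧) (n : ℕ) : R :=
  PowerSeries.constantCoeff ((dl g)^[n] f)

/-- `Q = ∏_{j=1}^{(p-1)/2} (4j-1)` in a commutative ring. -/
def QQ (R : Type*) [CommRing R] (p : ℕ) : R :=
  ∏ j ∈ Finset.range ((p - 1) / 2), (4 * ((j : R) + 1) - 1)

/-! ## Statements -/

/-- Job INT. -/
def S_int : Prop := ∀ n : ℕ, ∃ z : ℤ, d n = (z : ℚ)

/-- Job SER, first part. -/
def S_ser1 : Prop := Vt ^ 2 = P3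

/-- Job SER, second part. -/
def S_ser2 : Prop := D4 ℚ * P3 ^ 2 * PowerSeries.derivative ℚ U = 1

/-- Job A. -/
def S_A : Prop := S_ser2 → ∀ n : ℕ, d n = 2 ^ n * bb (D4 ℚ * P3 ^ 2) Vt (2 * n)

/-- Job B, first part. -/
def S_B1 : Prop := ∀ (p : ℕ) [Fact p.Prime], p % 4 = 1 → ∀ N : ℕ,
  ‖((Pi3 N / ((2 * N).factorial : ℚ) : ℚ) : ℚ_[p])‖ ≤ 1

/-- Job B, second part. -/
def S_B2 : Prop := ∀ (p : ℕ) [Fact p.Prime], p % 4 = 1 → ∀ K : ℕ,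
  ‖((Pi3 (K * p) / ((2 * (K * p)).factorial : ℚ) - Pi3 K / ((2 * K).factorial : ℚ) : ℚ) :
    ℚ_[p])‖ < 1

/-- Job SQ. -/
def S_sqrt : Prop := ∀ (p : ℕ) [Fact p.Prime], p ≠ 2 → ∀ f : ℚ_[p]⟦X⟧,
  PowerSeries.constantCoeff f = 1 → (∀ n, ‖PowerSeries.coeff n (f ^ 2)‖ ≤ 1) →
    ∀ n, ‖PowerSeries.coeff n f‖ ≤ 1

/-- The recursion of the coefficients of `P3` in characteristic `p`. -/
structure Rec (p : ℕ) (a : ℕ → ZMod p) : Prop where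
  zero : a 0 = 1
  odd : ∀ k, k % 2 = 1 → a k = 0
  step : ∀ k : ℕ, ((k : ZMod p) + 2) * ((k : ZMod p) + 1) * a (k + 2) =
    (2 * (k : ZMod p) + 1) ^ 2 * a k

/-- The truncation of `∑ a_k X^k` at degree `(p-1)/2`. -/
noncomputable def HH (p : ℕ) (a : ℕ → ZMod p) : (ZMod p)⟦X⟧ :=
  PowerSeries.mk fun j => if j ≤ (p - 1) / 2 then a j else 0

/-- Job LU. -/
def S_lucas : Prop := ∀ (p : ℕ) [Fact p.Prime], p % 4 = 1 → ∀ a : ℕ → ZMod p,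
  Rec p a → (∀ k, a (k * p) = a k) →
    PowerSeries.mk a = PowerSeries.mk a ^ p * HH p a

/-- Job AL. -/
def S_alpha : Prop := ∀ (p : ℕ) [Fact p.Prime] (g X0 : (ZMod p)⟦X⟧) (lam : ZMod p),
  PowerSeries.constantCoeff g = 1 →
  g * PowerSeries.derivative (ZMod p) X0 =
    g ^ p - PowerSeries.C lam * PowerSeries.X ^ (p - 1) * g →
  ∀ f : (ZMod p)⟦X⟧, (dl g)^[p] f = PowerSeries.C lam * dl g f

/-- Job X0. -/
def S_X0 : Prop := ∀ (p : ℕ) [Fact p.Prime], p % 4 = 1 → ∀ a : ℕ → ZMod p, Rec p a →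
  PowerSeries.mk a = PowerSeries.mk a ^ p * HH p a →
  ∃ X0 : (ZMod p)⟦X⟧,
    (D4 (ZMod p) * PowerSeries.mk a ^ 2) * PowerSeries.derivative (ZMod p) X0 =
      (D4 (ZMod p) * PowerSeries.mk a ^ 2) ^ p -
        PowerSeries.C (-(QQ (ZMod p) p) ^ 2) * PowerSeries.X ^ (p - 1) *
          (D4 (ZMod p) * PowerSeries.mk a ^ 2)

/-- Job DD. -/
def S_D : Prop := ∀ (p : ℕ) [Fact p.Prime] (g : ℤ_[p]⟦X⟧) (lam : ℤ_[p]),
  (∀ h : ℤ_[p]⟦X⟧, ∃ w : ℤ_[p]⟦X⟧,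
    (dl g)^[p] h - PowerSeries.C lam * dl g h = PowerSeries.C (p : ℤ_[p]) * w) →
  ∀ (f : ℤ_[p]⟦X⟧) (e n : ℕ), 1 ≤ e → e ≤ n →
    (p : ℤ_[p]) ^ e ∣ bb g f (n + p ^ (e - 1) * (p - 1)) - lam ^ p ^ (e - 1) * bb g f n

/-- Job MU. -/
def S_mu : Prop := ∀ (p : ℕ) [Fact p.Prime], p % 4 = 1 →
  (-(QQ (ZMod p) p) ^ 2 * 2 ^ ((p - 1) / 2)) ^ ((p - 1) / 4) = 1

end Pool.Agent.Q254.Theta
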