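import Mathlib
import Pool.Agent.Q254.Theta.Stm

/-!
# Assembly of the half period theorem
-/

namespace Pool.Agent.Q254.Theta.Asm

open PowerSeries

/-! ## Functoriality -/

theorem map_derivative {R S : Type*} [CommRing R] [CommRing S] (φ : R →+* S) (f : R⟦X⟧) :
    PowerSeries.map φ (derivative R f) = derivative S (PowerSeries.map φ f) := by
  ext n
  simp [coeff_derivative]

theorem map_D4 {R S : Type*} [CommRing R] [CommRing S] (φ : R →+* S) :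
    PowerSeries.map φ (D4 R) = D4 S := by
  unfold D4
  rw [map_sub, map_one, map_mul, map_pow, PowerSeries.map_X,
    show (4 : R⟦X⟧) = C (4 : R) from rfl, show (4 : S⟦X⟧) = C (4 : S) from rfl,
    PowerSeries.map_C, map_ofNat φ 4]

theorem map_dl {R S : Type*} [CommRing R] [CommRing S] (φ : R →+* S) (g f : R⟦X⟧) :
    PowerSeries.map φ (dl g f) = dl (PowerSeries.map φ g) (PowerSeries.map φ f) := by
  unfold dl
  rw [map_mul, map_derivative]

theorem map_dl_iter {R S : Type*} [CommRing R] [CommRing S] (φ : R →+* S) (g f : R⟦X⟧) (n : ℕ) :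
    PowerSeries.map φ ((dl g)^[n] f) = (dl (PowerSeries.map φ g))^[n] (PowerSeries.map φ f) := by
  induction n generalizing f with
  | zero => simp
  | succ n ih =>
    rw [Function.iterate_succ_apply, Function.iterate_succ_apply, ih, map_dl]

theorem map_bb {R S : Type*} [CommRing R] [CommRing S] (φ : R →+* S) (g f : R⟦X⟧) (n : ℕ) :
    φ (bb g f n) = bb (PowerSeries.map φ g) (PowerSeries.map φ f) n := by
  unfold bb
  rw [← map_dl_iter, ← coeff_zero_eq_constantCoeff_apply, ← coeff_zero_eq_constantCoeff_apply,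
    coeff_map]

theorem map_QQ {R S : Type*} [CommRing R] [CommRing S] (φ : R →+* S) (p : ℕ) :
    φ (QQ R p) = QQ S p := by
  unfold QQ
  rw [map_prod]
  refine Finset.prod_congr rfl fun j _ => ?_
  rw [map_sub, map_one, map_mul, map_add, map_one, map_natCast, map_ofNat φ 4]

/-! ## Recursion over `ℚ` -/

/-- Coefficients of `P3`. -/
def A (k : ℕ) : ℚ := if k % 2 = 0 then Pi3 (k / 2) / (k.factorial : ℚ) else 0

theorem coeff_P3 (k : ℕ) : coeff k P3 = A k := by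
  simp [P3, A]

theorem A_even (N : ℕ) : A (2 * N) = Pi3 N / ((2 * N).factorial : ℚ) := by
  unfold A
  rw [if_pos (by omega), Nat.mul_div_cancel_left _ (by norm_num)]

theorem A_odd {k : ℕ} (hk : k % 2 = 1) : A k = 0 := by
  unfold A
  rw [if_neg (by omega)]

theorem A_zero : A 0 = 1 := by
  simp [A, Pi3]

theorem A_step (k : ℕ) : ((k : ℚ) + 2) * ((k : ℚ) + 1) * A (k + 2) =
    (2 * (k : ℚ) + 1) ^ 2 * A k := by
  rcases Nat.even_or_odd' k with ⟨N, rfl | rfl⟩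
  · rw [show 2 * N + 2 = 2 * (N + 1) by ring, A_even, A_even]
    have h1 : Pi3 (N + 1) = Pi3 N * (4 * ((N : ℚ) + 1) - 3) ^ 2 := by
      unfold Pi3
      rw [Finset.prod_range_succ]
    have h2 : (2 * (N + 1)).factorial = (2 * N + 2) * ((2 * N + 1) * (2 * N).factorial) := by
      rw [show 2 * (N + 1) = 2 * N + 1 + 1 by ring, Nat.factorial_succ, Nat.factorial_succ]
    have h3 : ((2 * N).factorial : ℚ) ≠ 0 := by positivity
    rw [h1, h2]
    push_cast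
    field_simp
    ring
  · rw [A_odd (by omega), A_odd (by omega)]
    ring

/-! ## The `p`-adic series -/

section padic

variable {p : ℕ} [Fact p.Prime]

/-- The embedding of `ℚ` into `ℚ_p`. -/
noncomputable def iot (p : ℕ) [Fact p.Prime] : ℚ →+* ℚ_[p] := Rat.castHom ℚ_[p]

theorem norm_A (hb : S_B1) (h4 : p % 4 = 1) (k : ℕ) : ‖((A k : ℚ) : ℚ_[p])‖ ≤ 1 := by
  rcases Nat.even_or_odd' k with ⟨N, rfl | rfl⟩
  · rw [A_even]
    exact hb p h4 N
  · rw [A_odd (by omega)]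
    simp

theorem lift_series (f : ℚ_[p]⟦X⟧) (hf : ∀ n, ‖coeff n f‖ ≤ 1) :
    ∃ F : ℤ_[p]⟦X⟧, PowerSeries.map (PadicInt.Coe.ringHom (p := p)) F = f := by
  have h : ∀ n, ∃ z : ℤ_[p], PadicInt.Coe.ringHom z = coeff n f := fun n =>
    ⟨⟨coeff n f, hf n⟩, rfl⟩
  choose z hz using h
  refine ⟨PowerSeries.mk z, ?_⟩
  ext n
  rw [coeff_map, coeff_mk, hz]

theorem exists_P (hb : S_B1) (h4 : p % 4 = 1) :
    ∃ F : ℤ_[p]⟦X⟧, PowerSeries.map (PadicInt.Coe.ringHom (p := p)) F =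
      PowerSeries.map (iot p) P3 := by
  refine lift_series _ fun n => ?_
  rw [coeff_map, coeff_P3]
  exact norm_A hb h4 n

theorem exists_V (hb : S_B1) (hs : S_ser1) (hq : S_sqrt) (h4 : p % 4 = 1) :
    ∃ F : ℤ_[p]⟦X⟧, PowerSeries.map (PadicInt.Coe.ringHom (p := p)) F =
      PowerSeries.map (iot p) Vt := by
  refine lift_series _ ?_
  refine hq p (by rintro rfl; omega) _ ?_ ?_
  · rw [← coeff_zero_eq_constantCoeff_apply, coeff_map]
    simp [Vt, v]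
  · intro n
    rw [← map_pow, hs, coeff_map, coeff_P3]
    exact norm_A hb h4 n

theorem coe_inj {x y : ℤ_[p]} (h : PadicInt.Coe.ringHom x = PadicInt.Coe.ringHom y) : x = y :=
  Subtype.ext h

/-- Coefficients of the lifted series. -/
theorem coe_coeff {F : ℤ_[p]⟦X⟧} (hF : PowerSeries.map (PadicInt.Coe.ringHom (p := p)) F =
    PowerSeries.map (iot p) P3) (k : ℕ) :
    PadicInt.Coe.ringHom (coeff k F) = ((A k : ℚ) : ℚ_[p]) := by
  have := congrArg (coeff k) hF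
  rw [coeff_map, coeff_map, coeff_P3] at this
  exact this

theorem rec_of {F : ℤ_[p]⟦X⟧} (hF : PowerSeries.map (PadicInt.Coe.ringHom (p := p)) F =
    PowerSeries.map (iot p) P3) :
    Rec p (fun k => PadicInt.toZMod (coeff k F)) where
  zero := by
    have : coeff 0 F = 1 := coe_inj (by rw [coe_coeff hF, A_zero]; simp)
    simp only [this, map_one]
  odd := by
    intro k hk
    have : coeff k F = 0 := coe_inj (by rw [coe_coeff hF, A_odd hk]; simp)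
    simp only [this, map_zero]
  step := by
    intro k
    have : ((k : ℤ_[p]) + 2) * ((k : ℤ_[p]) + 1) * coeff (k + 2) F =
        (2 * (k : ℤ_[p]) + 1) ^ 2 * coeff k F := by
      apply coe_inj
      simp only [map_mul, map_add, map_pow, map_natCast, map_ofNat, map_one]
      rw [coe_coeff hF, coe_coeff hF]
      exact_mod_cast congrArg (fun q : ℚ => (q : ℚ_[p])) (A_step k)
    have h2 := congrArg (PadicInt.toZMod (p := p)) this
    simpa only [map_mul, map_add, map_pow, map_natCast, map_ofNat, map_one] using h2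

theorem toZMod_eq_zero_of {x : ℤ_[p]} (h : ‖x‖ < 1) : PadicInt.toZMod x = 0 := by
  have : x ∈ RingHom.ker (PadicInt.toZMod (p := p)) := by
    rw [PadicInt.ker_toZMod]
    exact PadicInt.mem_nonunits.mpr h
  exact this

theorem dvd_of_toZMod {x : ℤ_[p]} (h : PadicInt.toZMod x = 0) : (p : ℤ_[p]) ∣ x := by
  have : x ∈ RingHom.ker (PadicInt.toZMod (p := p)) := h
  rw [PadicInt.ker_toZMod, PadicInt.maximalIdeal_eq_span_p, Ideal.mem_span_singleton] at this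
  exact this

theorem frob_of (hb2 : S_B2) (h4 : p % 4 = 1) {F : ℤ_[p]⟦X⟧}
    (hF : PowerSeries.map (PadicInt.Coe.ringHom (p := p)) F = PowerSeries.map (iot p) P3)
    (k : ℕ) : PadicInt.toZMod (coeff (k * p) F) = PadicInt.toZMod (coeff k F) := by
  rcases Nat.even_or_odd' k with ⟨K, rfl | rfl⟩
  · rw [← sub_eq_zero, ← map_sub]
    apply toZMod_eq_zero_of
    have h := hb2 p h4 K
    have e : PadicInt.Coe.ringHom (coeff (2 * K * p) F - coeff (2 * K) F) =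
        ((Pi3 (K * p) / ((2 * (K * p)).factorial : ℚ) -
          Pi3 K / ((2 * K).factorial : ℚ) : ℚ) : ℚ_[p]) := by
      rw [map_sub, coe_coeff hF, coe_coeff hF, mul_assoc, A_even, A_even]
      push_cast
      ring
    rw [← e] at h
    exact h
  · have hodd : ((2 * K + 1) * p) % 2 = 1 := by
      rw [Nat.mul_mod]
      have : p % 2 = 1 := by omega
      rw [this]
      omega
    have h1 : coeff ((2 * K + 1) * p) F = 0 :=
      coe_inj (by rw [coe_coeff hF, A_odd hodd]; simp)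
    have h2 : coeff (2 * K + 1) F = 0 :=
      coe_inj (by rw [coe_coeff hF, A_odd (by omega)]; simp)
    rw [h1, h2]

theorem toZMod_mul_lam (p : ℕ) [Fact p.Prime] :
    PadicInt.toZMod (-(QQ ℤ_[p] p) ^ 2) = -(QQ (ZMod p) p) ^ 2 := by
  rw [map_neg, map_pow, map_QQ]

/-- `δ^p = λ δ` modulo `p`. -/
theorem key (hb2 : S_B2) (hl : S_lucas) (hx : S_X0) (ha : S_alpha) (h4 : p % 4 = 1)
    {F : ℤ_[p]⟦X⟧}
    (hF : PowerSeries.map (PadicInt.Coe.ringHom (p := p)) F = PowerSeries.map (iot p) P3)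
    (h : ℤ_[p]⟦X⟧) : ∃ w : ℤ_[p]⟦X⟧,
      (dl (D4 ℤ_[p] * F ^ 2))^[p] h - C (-(QQ ℤ_[p] p) ^ 2) * dl (D4 ℤ_[p] * F ^ 2) h =
        C (p : ℤ_[p]) * w := by
  set a : ℕ → ZMod p := fun k => PadicInt.toZMod (coeff k F) with haa
  have hrec : Rec p a := rec_of hF
  have hP := hl p h4 a hrec (fun k => frob_of hb2 h4 hF k)
  obtain ⟨X0, hX0⟩ := hx p h4 a hrec hP
  have hmk : PowerSeries.map (PadicInt.toZMod (p := p)) F = mk a := by
    ext n
    rw [coeff_map, coeff_mk]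
  have hg : PowerSeries.map (PadicInt.toZMod (p := p)) (D4 ℤ_[p] * F ^ 2) =
      D4 (ZMod p) * mk a ^ 2 := by
    rw [map_mul, map_pow, map_D4, hmk]
  have hc : constantCoeff (D4 (ZMod p) * mk a ^ 2) = 1 := by
    simp [D4, hrec.zero]
  have hal := ha p _ X0 _ hc hX0 (PowerSeries.map (PadicInt.toZMod (p := p)) h)
  have hz : PowerSeries.map (PadicInt.toZMod (p := p))
      ((dl (D4 ℤ_[p] * F ^ 2))^[p] h - C (-(QQ ℤ_[p] p) ^ 2) * dl (D4 ℤ_[p] * F ^ 2) h) = 0 := by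
    rw [map_sub, map_dl_iter, hg, hal]
    rw [map_mul, map_dl, hg, PowerSeries.map_C, toZMod_mul_lam, sub_self]
  have hd : ∀ n, ∃ c : ℤ_[p], coeff n
      ((dl (D4 ℤ_[p] * F ^ 2))^[p] h - C (-(QQ ℤ_[p] p) ^ 2) * dl (D4 ℤ_[p] * F ^ 2) h) =
        (p : ℤ_[p]) * c := by
    intro n
    have := congrArg (coeff n) hz
    rw [coeff_map, map_zero] at this
    exact dvd_of_toZMod this
  choose c hc' using hd
  refine ⟨mk c, ?_⟩
  ext n
  rw [hc', coeff_C_mul, coeff_mk]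

/-- The value `d(n)` in `ℤ_p`. -/
theorem d_padic (hA : S_A) (hs2 : S_ser2) {F V : ℤ_[p]⟦X⟧}
    (hF : PowerSeries.map (PadicInt.Coe.ringHom (p := p)) F = PowerSeries.map (iot p) P3)
    (hV : PowerSeries.map (PadicInt.Coe.ringHom (p := p)) V = PowerSeries.map (iot p) Vt)
    (n : ℕ) (z : ℤ) (hz : d n = (z : ℚ)) :
    (z : ℤ_[p]) = 2 ^ n * bb (D4 ℤ_[p] * F ^ 2) V (2 * n) := by
  apply coe_inj
  rw [map_mul, map_pow, map_bb, map_mul, map_pow, map_D4, hF, hV]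
  have h1 : iot p (d n) = iot p (2 ^ n * bb (D4 ℚ * P3 ^ 2) Vt (2 * n)) := by
    rw [← hA hs2 n]
  rw [map_mul, map_pow, map_bb, map_mul, map_pow, map_D4, hz] at h1
  rw [map_ofNat] at h1 ⊢
  rw [← h1, map_intCast, map_intCast]

/-- Multiplier form over `ℤ`. -/
theorem mult (hb : S_B1) (hb2 : S_B2) (hs1 : S_ser1) (hs2 : S_ser2) (hq : S_sqrt)
    (hl : S_lucas) (hx : S_X0) (ha : S_alpha) (hA : S_A) (hD : S_D) (h4 : p % 4 = 1)
    (D : ℕ → ℤ) (hDd : ∀ n, d n = (D n : ℚ)) (e n : ℕ) (he : 1 ≤ e) (hn : e ≤ 2 * n) :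
    (p : ℤ) ^ e ∣ D (n + p ^ (e - 1) * ((p - 1) / 2)) -
      (-(QQ ℤ p) ^ 2 * 2 ^ ((p - 1) / 2)) ^ p ^ (e - 1) * D n := by
  obtain ⟨F, hF⟩ := exists_P (p := p) hb h4
  obtain ⟨V, hV⟩ := exists_V (p := p) hb hs1 hq h4
  have h1 := hD p (D4 ℤ_[p] * F ^ 2) (-(QQ ℤ_[p] p) ^ 2) (key hb2 hl hx ha h4 hF) V e (2 * n)
    he hn
  have h2 : 2 * n + p ^ (e - 1) * (p - 1) = 2 * (n + p ^ (e - 1) * ((p - 1) / 2)) := by
    have : p - 1 = 2 * ((p - 1) / 2) := by omega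
    conv_lhs => rw [this]
    ring
  rw [h2] at h1
  rw [← PadicInt.pow_p_dvd_int_iff]
  push_cast
  rw [d_padic hA hs2 hF hV _ _ (hDd (n + p ^ (e - 1) * ((p - 1) / 2))),
    d_padic hA hs2 hF hV _ _ (hDd n)]
  have h3 : ((QQ ℤ p : ℤ) : ℤ_[p]) = QQ ℤ_[p] p := map_QQ (Int.castRingHom ℤ_[p]) p
  rw [h3]
  have h4 : (2 : ℤ_[p]) ^ (n + p ^ (e - 1) * ((p - 1) / 2)) *
        bb (D4 ℤ_[p] * F ^ 2) V (2 * (n + p ^ (e - 1) * ((p - 1) / 2))) -
      (-(QQ ℤ_[p] p) ^ 2 * 2 ^ ((p - 1) / 2)) ^ p ^ (e - 1) *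
        (2 ^ n * bb (D4 ℤ_[p] * F ^ 2) V (2 * n)) =
      2 ^ (n + p ^ (e - 1) * ((p - 1) / 2)) *
        (bb (D4 ℤ_[p] * F ^ 2) V (2 * (n + p ^ (e - 1) * ((p - 1) / 2))) -
          (-(QQ ℤ_[p] p) ^ 2) ^ p ^ (e - 1) * bb (D4 ℤ_[p] * F ^ 2) V (2 * n)) := by
    rw [mul_pow (-(QQ ℤ_[p] p) ^ 2) (2 ^ ((p - 1) / 2)), ← pow_mul, pow_add]
    rw [mul_comm ((p - 1) / 2) (p ^ (e - 1))]
    ring
  rw [h4]
  exact Dvd.dvd.mul_left h1 _

end padic

/-- Iteration of a multiplier relation. -/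
theorem iterate_mult {M Λ : ℤ} (D : ℕ → ℤ) (S e : ℕ)
    (h : ∀ n, e ≤ 2 * n → M ∣ D (n + S) - Λ * D n) (t n : ℕ) (hn : e ≤ 2 * n) :
    M ∣ D (n + t * S) - Λ ^ t * D n := by
  induction t with
  | zero => simp
  | succ t ih =>
    have h1 := h (n + t * S) (by omega)
    have e1 : n + (t + 1) * S = n + t * S + S := by ring
    rw [e1]
    have e2 : D (n + t * S + S) - Λ ^ (t + 1) * D n =
        (D (n + t * S + S) - Λ * D (n + t * S)) + Λ * (D (n + t * S) - Λ ^ t * D n) := by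
      rw [pow_succ]; ring
    rw [e2]
    exact dvd_add h1 (Dvd.dvd.mul_left ih _)

/-- The statement of the theorem. -/
def Goal : Prop := ∃ D : ℕ → ℤ, (∀ n, d n = (D n : ℚ)) ∧
  ∀ p : ℕ, p.Prime → p % 4 = 1 → ∀ e : ℕ, 1 ≤ e → ∀ n : ℕ, e ≤ 2 * n →
    D (n + p ^ (e - 1) * (p - 1) ^ 2 / 8) ≡ D n [ZMOD (p : ℤ) ^ e] ∧
    D (n + p ^ (e - 1) * ((p - 1) / 2)) ≡
      (-(QQ ℤ p) ^ 2 * 2 ^ ((p - 1) / 2)) ^ p ^ (e - 1) * D n [ZMOD (p : ℤ) ^ e]

theorem goal (hi : S_int) (hb : S_B1) (hb2 : S_B2) (hs1 : S_ser1) (hs2 : S_ser2) (hq : S_sqrt)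
    (hl : S_lucas) (hx : S_X0) (ha : S_alpha) (hA : S_A) (hD : S_D) (hm : S_mu) : Goal := by
  choose D hDd using hi
  refine ⟨D, hDd, ?_⟩
  intro p hp h4 e he n hn
  have : Fact p.Prime := ⟨hp⟩
  have h1 := iterate_mult (M := (p : ℤ) ^ e)
    (Λ := (-(QQ ℤ p) ^ 2 * 2 ^ ((p - 1) / 2)) ^ p ^ (e - 1)) D
    (p ^ (e - 1) * ((p - 1) / 2)) e
    (fun n hn => mult hb hb2 hs1 hs2 hq hl hx ha hA hD h4 D hDd e n he hn) ((p - 1) / 4) n hn
  have h2 : (p - 1) / 4 * (p ^ (e - 1) * ((p - 1) / 2)) = p ^ (e - 1) * (p - 1) ^ 2 / 8 := by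
    obtain ⟨m, hm⟩ : ∃ m, p - 1 = 4 * m := ⟨(p - 1) / 4, by omega⟩
    rw [hm]
    have e1 : 4 * m / 4 = m := by omega
    have e2 : 4 * m / 2 = 2 * m := by omega
    rw [e1, e2]
    have e3 : p ^ (e - 1) * (4 * m) ^ 2 = 8 * (m * (p ^ (e - 1) * (2 * m))) := by ring
    rw [e3, Nat.mul_div_cancel_left _ (by norm_num)]
  rw [h2] at h1
  have h3 : (p : ℤ) ^ e ∣
      ((-(QQ ℤ p) ^ 2 * 2 ^ ((p - 1) / 2)) ^ p ^ (e - 1)) ^ ((p - 1) / 4) - 1 := by
    have h5 : (p : ℤ) ∣ (-(QQ ℤ p) ^ 2 * 2 ^ ((p - 1) / 2)) ^ ((p - 1) / 4) - 1 := by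
      rw [← ZMod.intCast_zmod_eq_zero_iff_dvd]
      push_cast
      have h6 : ((QQ ℤ p : ℤ) : ZMod p) = QQ (ZMod p) p := map_QQ (Int.castRingHom (ZMod p)) p
      rw [h6, hm p h4, sub_self]
    have h7 := dvd_sub_pow_of_dvd_sub h5 (e - 1)
    rw [one_pow, Nat.sub_add_cancel he] at h7
    have e9 : ((-(QQ ℤ p) ^ 2 * 2 ^ ((p - 1) / 2)) ^ p ^ (e - 1)) ^ ((p - 1) / 4) =
        ((-(QQ ℤ p) ^ 2 * 2 ^ ((p - 1) / 2)) ^ ((p - 1) / 4)) ^ p ^ (e - 1) := by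
      rw [← pow_mul, ← pow_mul, mul_comm (p ^ (e - 1)) ((p - 1) / 4)]
    rw [e9]
    exact h7
  refine ⟨?_, by
    rw [Int.modEq_comm, Int.modEq_iff_dvd]
    exact mult hb hb2 hs1 hs2 hq hl hx ha hA hD h4 D hDd e n he hn⟩
  rw [Int.modEq_comm, Int.modEq_iff_dvd]
  have h8 : D (n + p ^ (e - 1) * (p - 1) ^ 2 / 8) - D n =
      (D (n + p ^ (e - 1) * (p - 1) ^ 2 / 8) -
        ((-(QQ ℤ p) ^ 2 * 2 ^ ((p - 1) / 2)) ^ p ^ (e - 1)) ^ ((p - 1) / 4) * D n) +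
      (((-(QQ ℤ p) ^ 2 * 2 ^ ((p - 1) / 2)) ^ p ^ (e - 1)) ^ ((p - 1) / 4) - 1) * D n := by ring
  rw [h8]
  exact dvd_add h1 (Dvd.dvd.mul_right h3 _)

end Pool.Agent.Q254.Theta.Asm
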