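import Mathlib
import Pool.Agent.Q254.Theta.Stm

/-!
# The polynomial identity behind the half period (job X0)
-/

namespace Pool.Agent.Q254.Theta.XZ

open Polynomial

variable {p : ℕ}

/-- `1 - 4X²` as a polynomial. -/
noncomputable def Dp (p : ℕ) : (ZMod p)[X] := 1 - C 4 * X ^ 2

/-- Truncated coefficients. -/
def hc (p : ℕ) (a : ℕ → ZMod p) (j : ℕ) : ZMod p := if j ≤ (p - 1) / 2 then a j else 0

/-- The truncated solution as a polynomial. -/
noncomputable def Hp (p : ℕ) (a : ℕ → ZMod p) : (ZMod p)[X] :=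
  ∑ j ∈ Finset.range ((p - 1) / 2 + 1), C (a j) * X ^ j

theorem Hp_coeff (a : ℕ → ZMod p) (n : ℕ) : (Hp p a).coeff n = hc p a n := by
  unfold Hp hc
  rw [finsetSum_coeff]
  simp only [coeff_C_mul_X_pow]
  rw [Finset.sum_ite_eq]
  simp

theorem coeff_DD (y : (ZMod p)[X]) (n : ℕ) :
    (derivative (Dp p * derivative y)).coeff n =
      ((n : ZMod p) + 2) * ((n : ZMod p) + 1) * y.coeff (n + 2)
        - 4 * (n : ZMod p) * ((n : ZMod p) + 1) * y.coeff n := by
  rw [coeff_derivative]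
  have h1 : Dp p * derivative y = derivative y - C 4 * (X ^ 2 * derivative y) := by
    unfold Dp; ring
  rw [h1, coeff_sub, coeff_C_mul, coeff_X_pow_mul', coeff_derivative]
  rcases n with _ | n
  · simp
    ring
  · have : 2 ≤ n + 1 + 1 := by omega
    rw [if_pos this, coeff_derivative]
    have h2 : n + 1 + 1 - 2 + 1 = n + 1 := by omega
    have h3 : n + 1 + 1 - 2 = n := by omega
    rw [h3]
    push_cast
    ring

/-- The polynomial `S` with `R = X^(p-2) S`. -/
noncomputable def Sp (p : ℕ) (a : ℕ → ZMod p) : (ZMod p)[X] :=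
  Dp p * Hp p a + C 8 * X ^ 2 * Hp p a - C 2 * (X * (Dp p * derivative (Hp p a)))

theorem Sp_coeff (a : ℕ → ZMod p) (i : ℕ) :
    (Sp p a).coeff i = (1 - 2 * (i : ZMod p)) * hc p a i +
      (if 2 ≤ i then 4 * (2 * (i : ZMod p) - 3) * hc p a (i - 2) else 0) := by
  have h1 : Sp p a = Hp p a + C 4 * (X ^ 2 * Hp p a) - C 2 * (X * derivative (Hp p a))
      + C 8 * (X ^ 3 * derivative (Hp p a)) := by
    unfold Sp Dp
    have e4 : (C 4 : (ZMod p)[X]) = 4 := rfl
    have e8 : (C 8 : (ZMod p)[X]) = 8 := rfl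
    have e2 : (C 2 : (ZMod p)[X]) = 2 := rfl
    rw [e4, e8, e2]
    ring
  rw [h1, coeff_add, coeff_sub, coeff_add, coeff_C_mul, coeff_C_mul, coeff_C_mul,
    coeff_X_pow_mul', coeff_X_pow_mul']
  rcases i with _ | i
  · simp [Hp_coeff]
  · rw [coeff_X_mul, coeff_derivative, Hp_coeff]
    by_cases h2 : 2 ≤ i + 1
    · rw [if_pos h2, if_pos h2, Hp_coeff]
      by_cases h3 : 3 ≤ i + 1
      · rw [if_pos h3, coeff_derivative, Hp_coeff]
        obtain ⟨k, rfl⟩ : ∃ k, i = k + 2 := ⟨i - 2, by omega⟩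
        have e1 : k + 2 + 1 - 3 = k := by omega
        have e2 : k + 2 + 1 - 2 = k + 1 := by omega
        rw [e1, e2]
        push_cast
        ring
      · have : i = 1 := by omega
        subst this
        rw [if_neg h3]
        simp
        ring
    · have : i = 0 := by omega
      subst this
      rw [if_neg h2, if_neg (by omega : ¬ 3 ≤ 0 + 1), if_neg h2]
      simp
      ring

/-! ## Elementary facts modulo `p` -/

theorem cast_ne {n : ℕ} [Fact p.Prime] (h0 : 0 < n) (h1 : n < p) : (n : ZMod p) ≠ 0 := by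
  intro h
  rw [ZMod.natCast_eq_zero_iff] at h
  exact absurd (Nat.le_of_dvd h0 h) (by omega)

/-- `4m+1 = 0` for `m = (p-1)/4`. -/
theorem four_m (h4 : p % 4 = 1) : 4 * ((((p - 1) / 4 : ℕ)) : ZMod p) + 1 = 0 := by
  have h : 4 * ((p - 1) / 4) + 1 = p := by omega
  have : ((4 * ((p - 1) / 4) + 1 : ℕ) : ZMod p) = 0 := by rw [h]; simp
  push_cast at this
  exact this

theorem two_m (h4 : p % 4 = 1) : 2 * ((((p - 1) / 2 : ℕ)) : ZMod p) + 1 = 0 := by
  have h : 2 * ((p - 1) / 2) + 1 = p := by omega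
  have : ((2 * ((p - 1) / 2) + 1 : ℕ) : ZMod p) = 0 := by rw [h]; simp
  push_cast at this
  exact this

/-- Coefficients of `R`. -/
noncomputable def Rc (p : ℕ) (a : ℕ → ZMod p) (n : ℕ) : ZMod p :=
  if p - 2 ≤ n then (Sp p a).coeff (n - (p - 2)) else 0

/-- The coefficients of `M`. -/
noncomputable def Mc (p : ℕ) [Fact p.Prime] (a : ℕ → ZMod p) (lam : ZMod p) : ℕ → ZMod p
  | 0 => 0
  | 1 => 1
  | n + 2 => ((2 * (n : ZMod p) + 1) ^ 2 * Mc p a lam n + lam * Rc p a n) /
      (((n : ZMod p) + 2) * ((n : ZMod p) + 1))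

theorem Mc_succ [Fact p.Prime] (a : ℕ → ZMod p) (lam : ZMod p) (n : ℕ) :
    Mc p a lam (n + 2) = ((2 * (n : ZMod p) + 1) ^ 2 * Mc p a lam n + lam * Rc p a n) /
      (((n : ZMod p) + 2) * ((n : ZMod p) + 1)) := by
  rw [Mc]

theorem hc_odd {a : ℕ → ZMod p} (ha : Rec p a) {j : ℕ} (hj : j % 2 = 1) : hc p a j = 0 := by
  unfold hc
  rw [ha.odd j hj]
  simp

theorem hc_big (a : ℕ → ZMod p) {j : ℕ} (hj : (p - 1) / 2 < j) : hc p a j = 0 := by
  unfold hc
  rw [if_neg (by omega)]

theorem Sp_odd {a : ℕ → ZMod p} (ha : Rec p a) {i : ℕ} (hi : i % 2 = 1) :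
    (Sp p a).coeff i = 0 := by
  rw [Sp_coeff, hc_odd ha hi]
  by_cases h : 2 ≤ i
  · rw [if_pos h, hc_odd ha (by omega)]
    ring
  · rw [if_neg h]; ring

theorem Sp_big [Fact p.Prime] (h4 : p % 4 = 1) (a : ℕ → ZMod p) {i : ℕ}
    (hi : (p - 1) / 2 + 2 ≤ i) : (Sp p a).coeff i = 0 := by
  rw [Sp_coeff, hc_big a (by omega), if_pos (by omega)]
  rcases Nat.eq_or_lt_of_le hi with h | h
  · have h2 : (p - 1) / 2 = 2 * ((p - 1) / 4) := by omega
    have h3 : (i : ZMod p) = 2 * ((((p - 1) / 4 : ℕ)) : ZMod p) + 2 := by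
      rw [← h, h2]; push_cast; ring
    have h5 := four_m h4
    have : 2 * (i : ZMod p) - 3 = 0 := by
      rw [h3]; linear_combination h5
    rw [this]; ring
  · rw [hc_big a (by omega)]; ring

theorem Rc_even [Fact p.Prime] (h4 : p % 4 = 1) {a : ℕ → ZMod p} (ha : Rec p a) {n : ℕ}
    (hn : n % 2 = 0) : Rc p a n = 0 := by
  unfold Rc
  by_cases h : p - 2 ≤ n
  · rw [if_pos h]
    have := (Fact.out : p.Prime).two_le
    exact Sp_odd ha (by omega)
  · rw [if_neg h]

theorem Rc_big [Fact p.Prime] (h4 : p % 4 = 1) (a : ℕ → ZMod p) {n : ℕ}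
    (hn : p + (p - 1) / 2 ≤ n) : Rc p a n = 0 := by
  unfold Rc
  have := (Fact.out : p.Prime).two_le
  rw [if_pos (by omega)]
  exact Sp_big h4 a (by omega)

theorem Rc_small (a : ℕ → ZMod p) {n : ℕ} (hn : n < p - 2) : Rc p a n = 0 := by
  unfold Rc
  rw [if_neg (by omega)]

theorem Mc_even [Fact p.Prime] (h4 : p % 4 = 1) {a : ℕ → ZMod p} (ha : Rec p a)
    (lam : ZMod p) (n : ℕ) : Mc p a lam (2 * n) = 0 := by
  induction n with
  | zero => simp [Mc]
  | succ n ih =>
    have : 2 * (n + 1) = 2 * n + 2 := by ring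
    rw [this, Mc_succ, ih, Rc_even h4 ha (by omega)]
    simp

theorem Mc_big [Fact p.Prime] (h4 : p % 4 = 1) {a : ℕ → ZMod p} (ha : Rec p a)
    (lam : ZMod p) (t : ℕ) : Mc p a lam (p + (p - 1) / 2 + 1 + t) = 0 := by
  induction t using Nat.strong_induction_on with
  | _ t ih =>
    rcases t with _ | _ | t
    · have : p + (p - 1) / 2 + 1 + 0 = 2 * ((p + (p - 1) / 2 + 1) / 2) := by omega
      rw [this, Mc_even h4 ha]
    · have h1 : p + (p - 1) / 2 + 1 + (0 + 1) = p + (p - 1) / 2 + 2 := by omega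
      rw [h1, Mc_succ, Rc_big h4 a le_rfl]
      have h5 := two_m h4
      have : 2 * ((p + (p - 1) / 2 : ℕ) : ZMod p) + 1 = 0 := by
        push_cast
        rw [CharP.cast_eq_zero]
        linear_combination h5
      rw [this]
      simp
    · have h1 : p + (p - 1) / 2 + 1 + (t + 1 + 1) = (p + (p - 1) / 2 + 1 + t) + 2 := by omega
      rw [h1, Mc_succ, ih t (by omega), Rc_big h4 a (by omega)]
      simp

/-- Closed form below `p`. -/
theorem Mc_fact [Fact p.Prime] (a : ℕ → ZMod p) (lam : ZMod p) (N : ℕ)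
    (hN : 2 * N + 1 ≤ p - 2) :
    Mc p a lam (2 * N + 1) * ((2 * N + 1).factorial : ZMod p) =
      (∏ j ∈ Finset.range N, (4 * ((j : ZMod p) + 1) - 1)) ^ 2 := by
  induction N with
  | zero => simp [Mc]
  | succ N ih =>
    have e1 : 2 * (N + 1) + 1 = (2 * N + 1) + 2 := by ring
    have n1 : ((2 * N + 1 + 1 : ℕ) : ZMod p) ≠ 0 := cast_ne (by omega) (by omega)
    have n2 : ((2 * N + 1 + 2 : ℕ) : ZMod p) ≠ 0 := cast_ne (by omega) (by omega)
    rw [e1, Mc_succ, Rc_small a (by omega), Finset.prod_range_succ, mul_pow, ← ih (by omega)]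
    have e2 : (2 * N + 1 + 2).factorial =
        (2 * N + 1 + 2) * ((2 * N + 1 + 1) * (2 * N + 1).factorial) := by
      rw [Nat.factorial_succ, Nat.factorial_succ]
    rw [e2]
    push_cast at n1 n2 ⊢
    have n3 : (2 * (N : ZMod p) + 1 + 2) ≠ 0 := n2
    have n4 : (2 * (N : ZMod p) + 1 + 1) ≠ 0 := n1
    field_simp
    ring

theorem wil [Fact p.Prime] (h2 : 3 ≤ p) : (((p - 2).factorial : ℕ) : ZMod p) = 1 := by
  have h := ZMod.wilsons_lemma p
  have e : p - 1 = (p - 2) + 1 := by omega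
  rw [e, Nat.factorial_succ] at h
  push_cast at h
  have e2 : ((p - 2 : ℕ) : ZMod p) + 1 = -1 := by
    have : ((p - 2 : ℕ) : ZMod p) + 2 = 0 := by
      have h3 : ((p - 2 + 2 : ℕ) : ZMod p) = 0 := by
        rw [show p - 2 + 2 = p by omega]; simp
      push_cast at h3; exact h3
    linear_combination this
  rw [e2] at h
  linear_combination -h

theorem Mc_crit [Fact p.Prime] (h4 : p % 4 = 1) (a : ℕ → ZMod p)
    (lam : ZMod p) : 9 * Mc p a lam (p - 2) = (QQ (ZMod p) p) ^ 2 := by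
  have h5 : 5 ≤ p := by
    have := (Fact.out : p.Prime).two_le
    omega
  have e : 2 * ((p - 1) / 2 - 1) + 1 = p - 2 := by omega
  have h := Mc_fact a lam ((p - 1) / 2 - 1) (by omega)
  rw [e, wil (by omega), mul_one] at h
  unfold QQ
  have e2 : (p - 1) / 2 = ((p - 1) / 2 - 1) + 1 := by omega
  rw [e2, Finset.prod_range_succ, mul_pow, h]
  have e3 : 4 * ((((p - 1) / 2 - 1 : ℕ) : ZMod p) + 1) - 1 = -3 := by
    have h6 := two_m h4
    have h7 : (((p - 1) / 2 : ℕ) : ZMod p) = (((p - 1) / 2 - 1 : ℕ) : ZMod p) + 1 := by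
      conv_lhs => rw [e2]
      push_cast; ring
    rw [← h7]
    linear_combination 2 * h6
  rw [e3]
  ring

/-- The recursion of `M` without denominators. -/
theorem Mc_rec [Fact p.Prime] (h4 : p % 4 = 1) {a : ℕ → ZMod p} (ha : Rec p a) (n : ℕ) :
    ((n : ZMod p) + 2) * ((n : ZMod p) + 1) * Mc p a (-(QQ (ZMod p) p) ^ 2) (n + 2) =
      (2 * (n : ZMod p) + 1) ^ 2 * Mc p a (-(QQ (ZMod p) p) ^ 2) n +
        (-(QQ (ZMod p) p) ^ 2) * Rc p a n := by
  have hp5 : 5 ≤ p := by
    have := (Fact.out : p.Prime).two_le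
    omega
  rcases Nat.even_or_odd' n with ⟨k, hk | hk⟩
  · have e : n + 2 = 2 * (k + 1) := by omega
    rw [e, Mc_even h4 ha, Rc_even h4 ha (by omega), hk, Mc_even h4 ha]
    ring
  · by_cases hb : p + (p - 1) / 2 + 1 ≤ n
    · obtain ⟨t, rfl⟩ : ∃ t, n = p + (p - 1) / 2 + 1 + t := ⟨n - (p + (p - 1) / 2 + 1), by omega⟩
      rw [show p + (p - 1) / 2 + 1 + t + 2 = p + (p - 1) / 2 + 1 + (t + 2) by ring,
        Mc_big h4 ha, Mc_big h4 ha, Rc_big h4 a (by omega)]
      ring
    · by_cases hc : n = p - 2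
      · subst hc
        have hz : ((p - 2 : ℕ) : ZMod p) + 2 = 0 := by
          have h3 : ((p - 2 + 2 : ℕ) : ZMod p) = 0 := by
            rw [show p - 2 + 2 = p by omega]; simp
          push_cast at h3; exact h3
        have hR : Rc p a (p - 2) = 1 := by
          unfold Rc
          rw [if_pos le_rfl, Nat.sub_self, Sp_coeff]
          simp only [hc, ha.zero]
          simp
        have hm := Mc_crit h4 a (-(QQ (ZMod p) p) ^ 2)
        have h2 : ((p - 2 : ℕ) : ZMod p) = -2 := by linear_combination hz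
        rw [hz, hR, h2]
        linear_combination -hm
      · rw [Mc_succ, mul_div_assoc', mul_comm, mul_div_assoc, div_self, mul_one]
        intro h0
        rcases mul_eq_zero.mp h0 with h1 | h1
        · have : ((n + 2 : ℕ) : ZMod p) = 0 := by push_cast; exact h1
          rw [ZMod.natCast_eq_zero_iff] at this
          obtain ⟨c, hc'⟩ := this
          have : c = 1 := by
            have h6 : c ≠ 0 := by rintro rfl; omega
            have h7 : c < 2 := by
              by_contra h8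
              have : p * 2 ≤ p * c := Nat.mul_le_mul_left _ (by omega)
              omega
            omega
          subst this
          omega
        · have : ((n + 1 : ℕ) : ZMod p) = 0 := by push_cast; exact h1
          rw [ZMod.natCast_eq_zero_iff] at this
          obtain ⟨c, hc'⟩ := this
          have : c = 1 := by
            have h6 : c ≠ 0 := by rintro rfl; omega
            have h7 : c < 2 := by
              by_contra h8
              have : p * 2 ≤ p * c := Nat.mul_le_mul_left _ (by omega)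
              omega
            omega
          subst this
          omega

/-- The polynomial `M`. -/
noncomputable def Mp (p : ℕ) [Fact p.Prime] (a : ℕ → ZMod p) : (ZMod p)[X] :=
  ∑ n ∈ Finset.range (p + (p - 1) / 2 + 1), C (Mc p a (-(QQ (ZMod p) p) ^ 2) n) * X ^ n

theorem Mp_coeff [Fact p.Prime] (h4 : p % 4 = 1) {a : ℕ → ZMod p} (ha : Rec p a) (n : ℕ) :
    (Mp p a).coeff n = Mc p a (-(QQ (ZMod p) p) ^ 2) n := by
  unfold Mp
  rw [finsetSum_coeff]
  simp only [coeff_C_mul_X_pow]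
  rw [Finset.sum_ite_eq]
  by_cases h : n ∈ Finset.range (p + (p - 1) / 2 + 1)
  · rw [if_pos h]
  · rw [if_neg h]
    rw [Finset.mem_range] at h
    obtain ⟨t, rfl⟩ : ∃ t, n = p + (p - 1) / 2 + 1 + t := ⟨n - (p + (p - 1) / 2 + 1), by omega⟩
    rw [Mc_big h4 ha]

/-- `R = X^(p-2) S`. -/
noncomputable def Rp (p : ℕ) (a : ℕ → ZMod p) : (ZMod p)[X] := X ^ (p - 2) * Sp p a

theorem Rp_coeff (a : ℕ → ZMod p) (n : ℕ) : (Rp p a).coeff n = Rc p a n := by
  unfold Rp Rc
  rw [coeff_X_pow_mul']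

theorem ode_M [Fact p.Prime] (h4 : p % 4 = 1) {a : ℕ → ZMod p} (ha : Rec p a) :
    derivative (Dp p * derivative (Mp p a)) =
      Mp p a + C (-(QQ (ZMod p) p) ^ 2) * Rp p a := by
  ext n
  rw [coeff_DD, coeff_add, coeff_C_mul, Mp_coeff h4 ha, Mp_coeff h4 ha, Rp_coeff]
  linear_combination Mc_rec h4 ha n

theorem ode_H [Fact p.Prime] (h4 : p % 4 = 1) {a : ℕ → ZMod p} (ha : Rec p a) :
    derivative (Dp p * derivative (Hp p a)) = Hp p a := by
  ext n
  rw [coeff_DD, Hp_coeff, Hp_coeff]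
  by_cases h1 : n + 2 ≤ (p - 1) / 2
  · simp only [hc]
    rw [if_pos h1, if_pos (by omega)]
    linear_combination ha.step n
  · rw [hc_big a (by omega)]
    by_cases h2 : n = (p - 1) / 2
    · subst h2
      have h5 := two_m h4
      linear_combination (-(2 * (((p - 1) / 2 : ℕ) : ZMod p) + 1) * hc p a ((p - 1) / 2)) * h5
    · by_cases h3 : (p - 1) / 2 < n
      · rw [hc_big a h3]; ring
      · rw [hc_odd ha (by omega)]; ring

/-- The combination `N`. -/
noncomputable def Np (p : ℕ) [Fact p.Prime] (a : ℕ → ZMod p) : (ZMod p)[X] :=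
  Dp p * (derivative (Mp p a) * Hp p a - Mp p a * derivative (Hp p a)) +
    C (-(QQ (ZMod p) p) ^ 2) * X ^ (p - 1) * Dp p * Hp p a ^ 2

theorem der_Np [Fact p.Prime] (h4 : p % 4 = 1) {a : ℕ → ZMod p} (ha : Rec p a) :
    derivative (Np p a) = 0 := by
  have hp5 : 5 ≤ p := by
    have := (Fact.out : p.Prime).two_le
    omega
  obtain ⟨k, hk⟩ : ∃ k, p = k + 2 := ⟨p - 2, by omega⟩
  have hk1 : p - 1 = k + 1 := by omega
  have hk2 : p - 2 = k := by omega
  have hX : derivative (X ^ (p - 1) : (ZMod p)[X]) = - X ^ k := by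
    rw [hk1, derivative_X_pow]
    have : ((k + 1 : ℕ) : ZMod p) = -1 := by
      have h3 : ((k + 1 + 1 : ℕ) : ZMod p) = 0 := by
        rw [show k + 1 + 1 = p by omega]; simp
      push_cast at h3 ⊢
      linear_combination h3
    rw [this, Nat.add_sub_cancel]
    simp
  have hD : derivative (Dp p) = - C 8 * X := by
    unfold Dp
    rw [derivative_sub, derivative_one, derivative_C_mul, derivative_X_pow]
    have e4 : (C 4 : (ZMod p)[X]) = 4 := rfl
    have e8 : (C 8 : (ZMod p)[X]) = 8 := rfl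
    rw [e4, e8]
    push_cast
    have e2 : (C 2 : (ZMod p)[X]) = 2 := rfl
    rw [e2]
    ring
  have hM := ode_M h4 ha
  have hH := ode_H h4 ha
  rw [derivative_mul] at hM hH
  unfold Rp Sp at hM
  rw [hk2] at hM
  unfold Np
  simp only [derivative_add, derivative_sub, derivative_mul, derivative_C, hX, derivative_pow]
  rw [hD] at hM hH ⊢
  rw [hk1]
  have e8 : (C 8 : (ZMod p)[X]) = 8 := rfl
  have e2 : (C 2 : (ZMod p)[X]) = 2 := rfl
  rw [e8] at hM hH ⊢
  rw [e2] at hM
  have e3 : (C (((2 : ℕ) : ZMod p)) : (ZMod p)[X]) = 2 := by rw [Nat.cast_ofNat]; rfl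
  rw [e3]
  simp only [zero_mul, zero_add, Nat.add_one_sub_one, pow_one]
  linear_combination (Hp p a) * hM - (Mp p a) * hH

theorem natDegree_Hp (a : ℕ → ZMod p) : (Hp p a).natDegree ≤ (p - 1) / 2 := by
  rw [natDegree_le_iff_coeff_eq_zero]
  intro n hn
  rw [Hp_coeff, hc_big a hn]

theorem natDegree_Mp [Fact p.Prime] (h4 : p % 4 = 1) {a : ℕ → ZMod p} (ha : Rec p a) :
    (Mp p a).natDegree ≤ p + (p - 1) / 2 := by
  rw [natDegree_le_iff_coeff_eq_zero]
  intro n hn
  rw [Mp_coeff h4 ha]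
  obtain ⟨t, rfl⟩ : ∃ t, n = p + (p - 1) / 2 + 1 + t := ⟨n - (p + (p - 1) / 2 + 1), by omega⟩
  rw [Mc_big h4 ha]

theorem natDegree_Dp (p : ℕ) : (Dp p).natDegree ≤ 2 := by
  unfold Dp
  refine (natDegree_sub_le _ _).trans (max_le (by simp) (natDegree_C_mul_X_pow_le _ _))

theorem natDegree_Np [Fact p.Prime] (h4 : p % 4 = 1) {a : ℕ → ZMod p} (ha : Rec p a) :
    (Np p a).natDegree ≤ 2 * p := by
  have hp5 : 5 ≤ p := by
    have := (Fact.out : p.Prime).two_le
    omega
  have hH := natDegree_Hp (p := p) a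
  have hM := natDegree_Mp h4 ha
  have hD := natDegree_Dp p
  have hH' := natDegree_derivative_le (Hp p a)
  have hM' := natDegree_derivative_le (Mp p a)
  unfold Np
  refine (natDegree_add_le _ _).trans (max_le ?_ ?_)
  · refine natDegree_mul_le.trans ?_
    have h1 : (derivative (Mp p a) * Hp p a - Mp p a * derivative (Hp p a)).natDegree ≤
        p + (p - 1) / 2 + (p - 1) / 2 - 1 := by
      refine (natDegree_sub_le _ _).trans (max_le ?_ ?_)
      · refine natDegree_mul_le.trans ?_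
        omega
      · refine natDegree_mul_le.trans ?_
        omega
    omega
  · refine natDegree_mul_le.trans ?_
    have h1 := natDegree_pow_le (p := Hp p a) (n := 2)
    have h2 : (C (-(QQ (ZMod p) p) ^ 2) * X ^ (p - 1) * Dp p).natDegree ≤ (p - 1) + 2 := by
      refine natDegree_mul_le.trans ?_
      have := natDegree_C_mul_X_pow_le (-(QQ (ZMod p) p) ^ 2) (p - 1)
      omega
    omega

theorem two_ne [Fact p.Prime] (h4 : p % 4 = 1) : (2 : ZMod p) ≠ 0 := by
  have hp5 : 5 ≤ p := by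
    have := (Fact.out : p.Prime).two_le
    omega
  have := cast_ne (p := p) (n := 2) (by omega) (by omega)
  exact_mod_cast this

theorem Np_eq [Fact p.Prime] (h4 : p % 4 = 1) {a : ℕ → ZMod p} (ha : Rec p a) :
    Np p a = Dp p ^ p := by
  have hp5 : 5 ≤ p := by
    have := (Fact.out : p.Prime).two_le
    omega
  have h2 := two_ne h4
  set K := contract p (Np p a) with hK
  have hN : Np p a = K ^ p := by
    rw [← ZMod.expand_card, hK, expand_contract p (der_Np h4 ha) (by omega)]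
  have hdeg : K.natDegree ≤ 2 := by
    have := natDegree_Np h4 ha
    rw [hN, natDegree_pow] at this
    by_contra h
    have : p * 3 ≤ p * K.natDegree := Nat.mul_le_mul_left _ (by omega)
    omega
  have hKe : K = C (K.coeff 0) + C (K.coeff 1) * X + C (K.coeff 2) * X ^ 2 := by
    conv_lhs => rw [K.as_sum_range_C_mul_X_pow' (n := 3) (by omega)]
    simp [Finset.sum_range_succ]
  have ev : ∀ x : ZMod p, 1 - 4 * x ^ 2 = 0 → K.eval x = 0 := by
    intro x hx
    have h1 : (K ^ p).eval x = 0 := by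
      rw [← hN]
      have : (Dp p).eval x = 0 := by
        unfold Dp; simp [hx]
      unfold Np
      simp [this]
    rw [eval_pow] at h1
    exact pow_eq_zero_iff (by omega) |>.mp h1
  have e0 : K.coeff 0 = 1 := by
    have h1 : (K ^ p).eval 0 = 1 := by
      rw [← hN]
      unfold Np
      have e1 : (Mp p a).eval 0 = 0 := by
        rw [← coeff_zero_eq_eval_zero, Mp_coeff h4 ha]
        simp [Mc]
      have e2 : (derivative (Mp p a)).eval 0 = 1 := by
        rw [← coeff_zero_eq_eval_zero, coeff_derivative, Mp_coeff h4 ha]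
        simp [Mc]
      have e3 : (Hp p a).eval 0 = 1 := by
        rw [← coeff_zero_eq_eval_zero, Hp_coeff]
        simp [hc, ha.zero]
      have e4 : (Dp p).eval 0 = 1 := by
        unfold Dp; simp
      have e5 : (0 : ZMod p) ^ (p - 1) = 0 := zero_pow (by omega)
      simp [e1, e2, e3, e4, e5]
    rw [eval_pow, ZMod.pow_card, ← coeff_zero_eq_eval_zero] at h1
    exact h1
  have x1 := ev (2⁻¹) (by
    rw [inv_pow]
    have : (4 : ZMod p) = 2 ^ 2 := by norm_num
    rw [this, mul_inv_cancel₀ (pow_ne_zero 2 h2), sub_self])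
  have x2 := ev (-2⁻¹) (by
    rw [neg_sq, inv_pow]
    have : (4 : ZMod p) = 2 ^ 2 := by norm_num
    rw [this, mul_inv_cancel₀ (pow_ne_zero 2 h2), sub_self])
  rw [hKe] at x1 x2
  simp only [eval_add, eval_mul, eval_C, eval_X, eval_pow, e0] at x1 x2
  have e1 : K.coeff 1 = 0 := by
    have h3 : K.coeff 1 * (2 * 2⁻¹) = 0 := by linear_combination x1 - x2
    rw [mul_inv_cancel₀ h2, mul_one] at h3
    exact h3
  have e2 : K.coeff 2 = -4 := by
    rw [e1] at x1
    have h3 : (2 : ZMod p) * 2⁻¹ = 1 := mul_inv_cancel₀ h2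
    have h4 : K.coeff 2 * ((2 : ZMod p) * 2⁻¹) ^ 2 = -4 := by linear_combination 4 * x1
    rw [h3, one_pow, mul_one] at h4
    exact h4
  rw [hN]
  congr 1
  rw [hKe, e0, e1, e2]
  unfold Dp
  simp
  ring

theorem coe_Hp (a : ℕ → ZMod p) : ((Hp p a : (ZMod p)[X]) : PowerSeries (ZMod p)) = HH p a := by
  ext n
  rw [Polynomial.coeff_coe, Hp_coeff]
  simp [HH, hc]

theorem coe_Dp (p : ℕ) : ((Dp p : (ZMod p)[X]) : PowerSeries (ZMod p)) = D4 (ZMod p) := by
  unfold Dp D4
  rw [Polynomial.coe_sub, Polynomial.coe_mul, Polynomial.coe_one, Polynomial.coe_pow,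
    Polynomial.coe_X, Polynomial.coe_C]
  rfl

/-- Job X0. -/
theorem x0 : S_X0 := by
  intro p _ h4 a ha hP
  have hN := Np_eq h4 ha
  have hN2 := congrArg (fun q : (ZMod p)[X] => (q : PowerSeries (ZMod p))) hN
  simp only [Np, Polynomial.coe_add, Polynomial.coe_mul, Polynomial.coe_sub, Polynomial.coe_pow,
    Polynomial.coe_X, Polynomial.coe_C, coe_Hp, coe_Dp, ← PowerSeries.derivative_coe] at hN2
  set H := HH p a with hH
  set P := PowerSeries.mk a with hPdef
  set M : PowerSeries (ZMod p) := ((Mp p a : (ZMod p)[X]) : PowerSeries (ZMod p)) with hM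
  have hH0 : PowerSeries.constantCoeff H = 1 := by
    rw [hH]
    simp [HH, ha.zero]
  obtain ⟨X0, hX0⟩ : ∃ X0 : PowerSeries (ZMod p), X0 * H = M := by
    have hu : IsUnit H := by
      rw [PowerSeries.isUnit_iff_constantCoeff, hH0]
      exact isUnit_one
    obtain ⟨w, hw⟩ := hu.exists_left_inv
    exact ⟨M * w, by rw [mul_assoc, hw, mul_one]⟩
  refine ⟨X0, ?_⟩
  have hd : (PowerSeries.derivative (ZMod p) X0) * H ^ 2 =
      PowerSeries.derivative (ZMod p) M * H - M * PowerSeries.derivative (ZMod p) H := by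
    rw [← hX0, Derivation.leibniz]
    simp only [smul_eq_mul]
    ring
  have hPp : P = P ^ p * H := hP
  have e1 : (D4 (ZMod p) * P ^ 2) ^ p = D4 (ZMod p) ^ p * (P ^ p) ^ 2 := by
    rw [mul_pow]
    ring
  rw [e1, ← hN2]
  have e2 : P ^ 2 = (P ^ p) ^ 2 * H ^ 2 := by
    conv_lhs => rw [hPp]
    ring
  rw [e2]
  linear_combination (D4 (ZMod p) * (P ^ p) ^ 2) * hd

end Pool.Agent.Q254.Theta.XZ
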